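import Mathlib

/-!
# No commuting tuple of real `n × n` matrices, `n ≥ 3`, has all its nonzero orbits dense

Let `n ≥ 3` and let `A_1, …, A_m` be pairwise commuting real `n × n` matrices (any `m`, in particular
`m = n`).  Then some nonzero vector `x` has an orbit whose linear span has dimension at most two; so
the orbit is not dense.
-/

set_option autoImplicit false

namespace Pool.Agent.Results.MP_336050_an.NoMinimalTuple

/-- The orbit `{A_1^{k_1} ⋯ A_m^{k_m} x : k_1, …, k_m ≥ 0}` of the vector `x`. -/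
def orbit {n m : ℕ} (A : Fin m → Matrix (Fin n) (Fin n) ℝ) (x : Fin n → ℝ) : Set (Fin n → ℝ) :=
  {y | ∃ k : Fin m → ℕ, y = ((List.ofFn fun i => A i ^ k i).prod).mulVec x}

/-- Commuting endomorphisms of a nonzero complex finite dimensional space have a common
eigenvector. -/
lemma common_eigenvector {ι W : Type*} [AddCommGroup W] [Module ℂ W] [FiniteDimensional ℂ W]
    [Nontrivial W] (f : ι → Module.End ℂ W) (hf : ∀ i j, Commute (f i) (f j)) :
    ∃ w : W, w ≠ 0 ∧ ∀ i, ∃ μ : ℂ, f i w = μ • w := by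
  classical
  -- a nonzero invariant subspace of the least dimension
  let P : ℕ → Prop := fun d => ∃ V : Submodule ℂ W, V ≠ ⊥ ∧ (∀ i, ∀ v ∈ V, f i v ∈ V) ∧
    Module.finrank ℂ V = d
  have hP : ∃ d, P d := ⟨_, ⊤, top_ne_bot, fun _ _ _ => Submodule.mem_top, rfl⟩
  obtain ⟨V, hV0, hVi, hVd⟩ := Nat.find_spec hP
  obtain ⟨w, hwV, hw0⟩ := (Submodule.ne_bot_iff V).1 hV0
  refine ⟨w, hw0, fun i => ?_⟩
  have hnt : Nontrivial V := (Submodule.nontrivial_iff_ne_bot).2 hV0
  let g : Module.End ℂ V := (f i).restrict (hVi i)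
  obtain ⟨μ, hμ⟩ := Module.End.exists_eigenvalue g
  obtain ⟨v, hv⟩ := hμ.exists_hasEigenvector
  let V' : Submodule ℂ W := V ⊓ Module.End.eigenspace (f i) μ
  have hvv : f i (v : W) = μ • (v : W) := by
    have h := hv.apply_eq_smul
    exact congrArg (Subtype.val) h
  have hV'0 : V' ≠ ⊥ := by
    refine (Submodule.ne_bot_iff V').2 ⟨v, ⟨v.2, ?_⟩, ?_⟩
    · exact Module.End.mem_eigenspace_iff.2 hvv
    · intro h
      exact hv.2 (Subtype.ext h)
  have hV'i : ∀ j, ∀ u ∈ V', f j u ∈ V' := by
    rintro j u ⟨hu1, hu2⟩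
    refine ⟨hVi j u hu1, ?_⟩
    rw [SetLike.mem_coe, Module.End.mem_eigenspace_iff] at hu2 ⊢
    have h := congrArg (fun g : Module.End ℂ W => g u) (hf i j).eq
    simp only [Module.End.mul_apply] at h
    rw [h, hu2, map_smul]
  have hle : V' ≤ V := inf_le_left
  have hd : Module.finrank ℂ V ≤ Module.finrank ℂ V' := by
    rw [hVd]
    exact Nat.find_min' hP ⟨V', hV'0, hV'i, rfl⟩
  have heq : V' = V := Submodule.eq_of_le_of_finrank_le hle hd
  have hw' : w ∈ V' := by rw [heq]; exact hwV
  exact ⟨μ, Module.End.mem_eigenspace_iff.1 hw'.2⟩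

/-- **Commuting tuples of real matrices never act minimally in dimension at least three.** -/
theorem result (n : ℕ) (hn : 3 ≤ n) (m : ℕ) (A : Fin m → Matrix (Fin n) (Fin n) ℝ)
    (hA : ∀ i j, A i * A j = A j * A i) :
    ∃ x : Fin n → ℝ, x ≠ 0 ∧ Module.finrank ℝ (Submodule.span ℝ (orbit A x)) ≤ 2 ∧
      ¬ Dense (orbit A x) := by
  classical
  have : NeZero n := ⟨by omega⟩
  -- complexify
  let c : Matrix (Fin n) (Fin n) ℝ →+* Matrix (Fin n) (Fin n) ℂ := (algebraMap ℝ ℂ).mapMatrix
  let f : Fin m → Module.End ℂ (Fin n → ℂ) := fun i => Matrix.toLin' (c (A i))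
  have hf : ∀ i j, Commute (f i) (f j) := by
    intro i j
    change Matrix.toLin' (c (A i)) * Matrix.toLin' (c (A j)) =
      Matrix.toLin' (c (A j)) * Matrix.toLin' (c (A i))
    rw [Module.End.mul_eq_comp, Module.End.mul_eq_comp, ← Matrix.toLin'_mul, ← Matrix.toLin'_mul,
      ← map_mul, ← map_mul, hA i j]
  obtain ⟨w, hw0, hw⟩ := common_eigenvector f hf
  choose μ hμ using hw
  let a : Fin n → ℝ := fun i => (w i).re
  let b : Fin n → ℝ := fun i => (w i).im
  let V : Submodule ℝ (Fin n → ℝ) := Submodule.span ℝ {a, b}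
  have hmul : ∀ i, (A i).mulVec a = (μ i).re • a - (μ i).im • b ∧
      (A i).mulVec b = (μ i).im • a + (μ i).re • b := by
    intro i
    have h : (c (A i)).mulVec w = μ i • w := by
      have := hμ i
      rwa [Matrix.toLin'_apply] at this
    have hcomp : ∀ k, ((c (A i)).mulVec w) k =
        (((A i).mulVec a k : ℝ) : ℂ) + (((A i).mulVec b k : ℝ) : ℂ) * Complex.I := by
      intro k
      simp only [Matrix.mulVec, dotProduct]
      push_cast
      rw [Finset.sum_mul, ← Finset.sum_add_distrib]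
      refine Finset.sum_congr rfl fun l _ => ?_
      change ((A i k l : ℝ) : ℂ) * w l = _
      have : w l = ((a l : ℝ) : ℂ) + ((b l : ℝ) : ℂ) * Complex.I := (Complex.re_add_im (w l)).symm
      nth_rewrite 1 [this]
      ring
    constructor
    · funext k
      have h1 := congrArg Complex.re (congrFun h k)
      rw [hcomp k] at h1
      simpa [a, b] using h1
    · funext k
      have h1 := congrArg Complex.im (congrFun h k)
      rw [hcomp k] at h1
      have h2 : (A i).mulVec b k = (μ i).re * (w k).im + (μ i).im * (w k).re := by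
        simpa using h1
      simp only [Pi.add_apply, Pi.smul_apply, smul_eq_mul]
      rw [h2]
      ring
  have hVinv : ∀ i, ∀ v ∈ V, (A i).mulVec v ∈ V := by
    intro i v hv
    have ha : a ∈ V := Submodule.subset_span (by simp)
    have hb : b ∈ V := Submodule.subset_span (by simp)
    refine Submodule.span_induction ?_ ?_ ?_ ?_ hv
    · rintro u (rfl | rfl)
      · rw [(hmul i).1]
        exact V.sub_mem (V.smul_mem _ ha) (V.smul_mem _ hb)
      · rw [(hmul i).2]
        exact V.add_mem (V.smul_mem _ ha) (V.smul_mem _ hb)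
    · rw [Matrix.mulVec_zero]; exact V.zero_mem
    · intro u v _ _ hu hv
      rw [Matrix.mulVec_add]; exact V.add_mem hu hv
    · intro r u _ hu
      rw [Matrix.mulVec_smul]; exact V.smul_mem _ hu
  have hVpow : ∀ (B : Matrix (Fin n) (Fin n) ℝ), (∀ v ∈ V, B.mulVec v ∈ V) → ∀ k : ℕ, ∀ v ∈ V,
      (B ^ k).mulVec v ∈ V := by
    intro B hB k
    induction k with
    | zero => intro v hv; rwa [pow_zero, Matrix.one_mulVec]
    | succ k ih => intro v hv; rw [pow_succ, ← Matrix.mulVec_mulVec]; exact ih _ (hB v hv)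
  have hVprod : ∀ L : List (Matrix (Fin n) (Fin n) ℝ), (∀ B ∈ L, ∀ v ∈ V, B.mulVec v ∈ V) →
      ∀ v ∈ V, (L.prod).mulVec v ∈ V := by
    intro L
    induction L with
    | nil => intro _ v hv; rwa [List.prod_nil, Matrix.one_mulVec]
    | cons B L ih =>
      intro hL v hv
      rw [List.prod_cons, ← Matrix.mulVec_mulVec]
      exact hL B (by simp) _ (ih (fun B' hB' => hL B' (by simp [hB'])) v hv)
  have horb : ∀ v ∈ V, orbit A v ⊆ V := by
    rintro v hv y ⟨k, rfl⟩
    refine hVprod _ ?_ v hv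
    intro B hB
    obtain ⟨i, rfl⟩ := (List.mem_ofFn' _ _).1 hB
    exact hVpow _ (hVinv i) (k i)
  -- a nonzero vector of `V`
  obtain ⟨x, hxV, hx0⟩ : ∃ x ∈ V, x ≠ 0 := by
    by_cases ha : a = 0
    · refine ⟨b, Submodule.subset_span (by simp), fun hb => hw0 ?_⟩
      funext k
      have h1 : (w k).re = 0 := congrFun ha k
      have h2 : (w k).im = 0 := congrFun hb k
      exact Complex.ext h1 h2
    · exact ⟨a, Submodule.subset_span (by simp), ha⟩
  have hVfin : Module.finrank ℝ V ≤ 2 := by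
    have h := finrank_span_finset_le_card (R := ℝ) (M := Fin n → ℝ) ({a, b} : Finset (Fin n → ℝ))
    have h2 : ((({a, b} : Finset (Fin n → ℝ)) : Set (Fin n → ℝ))) = {a, b} := by simp
    rw [h2] at h
    exact h.trans Finset.card_le_two
  refine ⟨x, hx0, ?_, ?_⟩
  · exact (Submodule.finrank_mono (Submodule.span_le.2 (horb x hxV))).trans hVfin
  · intro hd
    have h1 : Dense (V : Set (Fin n → ℝ)) := hd.mono (horb x hxV)
    have h2 : IsClosed (V : Set (Fin n → ℝ)) := V.closed_of_finiteDimensional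
    have h3 : V = ⊤ := by
      rw [← SetLike.coe_set_eq, Submodule.top_coe, ← h2.closure_eq]
      exact h1.closure_eq
    rw [h3, finrank_top, Module.finrank_fin_fun] at hVfin
    omega

end Pool.Agent.Results.MP_336050_an.NoMinimalTuple
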